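import Pool.Agent.MP_24d90f_al.PM

open Pool.Agent.SR

namespace Pool.Agent.Results.MP_24d90f_al.Disproof

/-- The stable rank conjecture fails: for some field there are no isomorphisms between the Adams
eigenspaces and the second page of the rationalised rank spectral sequence that are compatible with
the abutment. -/
theorem result : ∃ (F : Type) (_ : Field F), ¬ ∀ s t : ℕ,
    Cmp (Eig F t (s + t)) (Cyc F (s + t)) (Bd F)
      (Zs F 2 (s + 1) (s + t)) (Bs F 2 (s + 1) (s + t)) :=
  main

end Pool.Agent.Results.MP_24d90f_al.Disproof
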